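import Pool.Agent.H98.SLN.Targets

/-!
# Row OB1 of the board sln: the boxes of the lower half (helper78)
-/

set_option autoImplicit false

open MeasureTheory ProbabilityTheory Filter Topology
open scoped ENNReal
open Pool.Agent.H95 Pool.Agent.H95.Cop
open Pool.Agent.H55.CG (pz VV Mo)
open Pool.Agent.H98.CE (pc WB HK OBJ)
open Pool.Agent.H96.Cop (ex pk Wn chargeLaw)
open Pool.Agent.H99.CE (NX)
open Pool.Agent.H98.SLN

namespace Pool.Agent.H78.SLN

theorem pf_OB1 (hW1D : T_W1D) (hDEN : T_DEN) (hMU1 : T_MU1) : T_OB1 := by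
  obtain ⟨N1, hN1, hD⟩ := hDEN
  refine ⟨N1, hN1, ?_⟩
  intro K α c δ ℓ q N ν hRG hN hMC hs
  have hN' : 1 ≤ N := le_trans hN1 hN
  have hα : 1 / 2 ≤ α := by
    have h1 := hRG.α0
    have h2 := hRG.δ1
    have h3 : (1 : ℝ) / 2 ^ 20 ≤ 1 / 2 := by norm_num
    linarith
  have hα1 : α ≤ 1 := hRG.α1
  have h60 : 2 ≤ 60 * N := by omega
  have hs' : 2 ^ 9 * Real.sqrt δ * ((120 * N : ℕ) : ℝ) ≤ 1 := by
    push_cast
    exact hs
  obtain ⟨mw, ml, dw, dl, hx⟩ :=
    hW1D K α c δ ℓ q hRG (240 * N) (60 * N) (120 * N) (3 * N) h60 hs'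
  have h240 : 1 ≤ 240 * N := by omega
  obtain ⟨i1, i2, u1, u2⟩ :=
    hMU1 K α ℓ q N (240 * N) (60 * N) (120 * N) (3 * N) ν hN' hα hα1 h240 h60 hMC
  have hden := hD K α c δ ℓ q N ν hRG hN hMC hs
  have hg : (1 : ℝ) / (1 + α) ≠ 0 := by
    have : (0 : ℝ) < 1 + α := by linarith
    positivity
  have hnn : ∀ x, 0 ≤ w1 K ℓ q (240 * N) (60 * N) (120 * N) (3 * N) x := fun x => (hx x).1
  refine ⟨w1 K ℓ q (240 * N) (60 * N) (120 * N) (3 * N),
    l1 K ℓ q (240 * N) (60 * N) (120 * N) (3 * N), ?_⟩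
  refine
    { mw := mw
      ml := ml
      dw := dw
      dl := dl
      nonneg := hnn
      le := fun x => (hx x).2.1
      zero := fun x => (hx x).2.2.1
      low := fun x => (hx x).2.2.2.1
      labJ := fun x => (hx x).2.2.2.2
      i1 := i1
      i2 := i2
      dens := ?_
      u1 := ?_
      u2 := ?_ }
  · intro j hj
    have hint : 0 ≤ ∫ x, (if l1 K ℓ q (240 * N) (60 * N) (120 * N) (3 * N) x = j then
        w1 K ℓ q (240 * N) (60 * N) (120 * N) (3 * N) x ^ (1 / (1 + α)) else 0) ∂(iid ν) := by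
      apply integral_nonneg
      intro x
      show (0 : ℝ) ≤ if l1 K ℓ q (240 * N) (60 * N) (120 * N) (3 * N) x = j then
        w1 K ℓ q (240 * N) (60 * N) (120 * N) (3 * N) x ^ (1 / (1 + α)) else 0
      split_ifs
      · exact Real.rpow_nonneg (hnn x) _
      · exact le_refl _
    by_cases h1 : j = 1
    · subst h1
      have heq : ∀ x, (if l1 K ℓ q (240 * N) (60 * N) (120 * N) (3 * N) x = 1 then
          w1 K ℓ q (240 * N) (60 * N) (120 * N) (3 * N) x ^ (1 / (1 + α)) else 0) =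
          w1 K ℓ q (240 * N) (60 * N) (120 * N) (3 * N) x ^ (1 / (1 + α)) := by
        intro x
        by_cases hl : l1 K ℓ q (240 * N) (60 * N) (120 * N) (3 * N) x = 1
        · rw [if_pos hl]
        · rw [if_neg hl]
          have h0 : l1 K ℓ q (240 * N) (60 * N) (120 * N) (3 * N) x = 0 := by
            have := (hx x).2.2.2.2
            omega
          rw [(hx x).2.2.1 h0, Real.zero_rpow hg]
      rw [integral_congr_ae (Filter.Eventually.of_forall heq)]
      rw [if_pos rfl]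
      refine le_trans (le_of_eq ?_) hden
      push_cast
      ring
    · rw [if_neg h1, mul_zero]
      exact hint
  · refine le_trans u1 (le_of_eq ?_)
    push_cast
    ring
  · refine le_trans u2 (le_of_eq ?_)
    push_cast
    ring

end Pool.Agent.H78.SLN
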