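import Pool.Agent.H98.SLN.Targets
import Pool.Agent.H96.Cop.Frac

/-!
# Row UMO of the board sln: the renewal inequality for the moments (helper78)
-/

set_option autoImplicit false

open MeasureTheory ProbabilityTheory Filter Topology
open scoped ENNReal
open Pool.Agent.H95 Pool.Agent.H95.Cop
open Pool.Agent.H96.Cop (ex pk)
open Pool.Agent.H99.CE (NX)
open Pool.Agent.H98.SLN

namespace Pool.Agent.H78.SLN

/-- the double sum of one pair `(i, D)` over the cells -/
lemma umo_re (n i D : ℕ) (hD : 1 ≤ D) (φ : ℕ → ℝ≥0∞) :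
    ∑ j ∈ Finset.range (n + 1), (if i + D ≤ j then φ (j - i - D) else 0) ≤
      ∑ m ∈ Finset.range n, φ m := by
  classical
  rw [← Finset.sum_filter]
  have hinj : Set.InjOn (fun j => j - i - D)
      (((Finset.range (n + 1)).filter fun j => i + D ≤ j : Finset ℕ) : Set ℕ) := by
    intro a ha b hb hab
    simp only [Finset.coe_filter, Finset.mem_range, Set.mem_ofPred_eq] at ha hb
    simp only at hab
    omega
  rw [← Finset.sum_image (f := φ) (g := fun j => j - i - D) hinj]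
  refine Finset.sum_le_sum_of_subset ?_
  intro m hm
  rw [Finset.mem_image] at hm
  obtain ⟨j, hj, rfl⟩ := hm
  rw [Finset.mem_filter, Finset.mem_range] at hj
  rw [Finset.mem_range]
  omega

/-- the renewal inequality, abstract form -/
lemma umo_abs (A : Bool → ℕ → ℝ≥0∞) (F : Bool → Bool → ℕ → ℝ≥0∞) (G : ℕ → ℝ≥0∞)
    (fh lh : ℝ≥0∞)
    (hstep : ∀ p j, A p j ≤ F p false j + ∑ i ∈ Finset.range (j + 1), ∑ D ∈ Finset.Icc 1 j,
      if i + D ≤ j then G D * (F p false i * A false (j - i - D) +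
        F p true i * A true (j - i - D)) else 0)
    (hF : ∀ p q n, ∑ i ∈ Finset.range n, F p q i ≤ fh)
    (hG : ∀ n, ∑ D ∈ Finset.Icc 1 n, G D ≤ lh) (hfl : fh * lh ≤ 8⁻¹) :
    ∀ n p, ∑ j ∈ Finset.range n, A p j ≤ 2 * fh := by
  intro n
  induction n with
  | zero =>
    intro p
    simp
  | succ n ih =>
    intro p
    set Yf := ∑ m ∈ Finset.range n, A false m with hYf
    set Yt := ∑ m ∈ Finset.range n, A true m with hYt
    have h1 : ∑ j ∈ Finset.range (n + 1), ∑ i ∈ Finset.range (j + 1), ∑ D ∈ Finset.Icc 1 j,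
        (if i + D ≤ j then G D * (F p false i * A false (j - i - D) +
          F p true i * A true (j - i - D)) else 0) ≤
        ∑ j ∈ Finset.range (n + 1), ∑ i ∈ Finset.range (n + 1), ∑ D ∈ Finset.Icc 1 n,
        (if i + D ≤ j then G D * (F p false i * A false (j - i - D) +
          F p true i * A true (j - i - D)) else 0) := by
      refine Finset.sum_le_sum fun j hj => ?_
      rw [Finset.mem_range] at hj
      refine le_trans (Finset.sum_le_sum fun i _ => ?_)
        (Finset.sum_le_sum_of_subset (Finset.range_mono (by omega : j + 1 ≤ n + 1)))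
      exact Finset.sum_le_sum_of_subset (Finset.Icc_subset_Icc le_rfl (by omega))
    have h2 : ∑ j ∈ Finset.range (n + 1), ∑ i ∈ Finset.range (n + 1), ∑ D ∈ Finset.Icc 1 n,
        (if i + D ≤ j then G D * (F p false i * A false (j - i - D) +
          F p true i * A true (j - i - D)) else 0) =
        ∑ i ∈ Finset.range (n + 1), ∑ D ∈ Finset.Icc 1 n, ∑ j ∈ Finset.range (n + 1),
        (if i + D ≤ j then G D * (F p false i * A false (j - i - D) +
          F p true i * A true (j - i - D)) else 0) := by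
      rw [Finset.sum_comm]
      refine Finset.sum_congr rfl fun i _ => ?_
      rw [Finset.sum_comm]
    have h3 : ∑ i ∈ Finset.range (n + 1), ∑ D ∈ Finset.Icc 1 n, ∑ j ∈ Finset.range (n + 1),
        (if i + D ≤ j then G D * (F p false i * A false (j - i - D) +
          F p true i * A true (j - i - D)) else 0) ≤
        ∑ i ∈ Finset.range (n + 1), ∑ D ∈ Finset.Icc 1 n,
          G D * (F p false i * Yf + F p true i * Yt) := by
      refine Finset.sum_le_sum fun i _ => Finset.sum_le_sum fun D hD => ?_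
      rw [Finset.mem_Icc] at hD
      refine le_trans (umo_re n i D hD.1 (fun m => G D * (F p false i * A false m +
        F p true i * A true m))) (le_of_eq ?_)
      rw [← Finset.mul_sum, Finset.sum_add_distrib, ← Finset.mul_sum, ← Finset.mul_sum]
    have h4 : ∑ i ∈ Finset.range (n + 1), ∑ D ∈ Finset.Icc 1 n,
          G D * (F p false i * Yf + F p true i * Yt) ≤
        lh * (fh * (2 * fh) + fh * (2 * fh)) := by
      have e1 : ∑ i ∈ Finset.range (n + 1), ∑ D ∈ Finset.Icc 1 n,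
          G D * (F p false i * Yf + F p true i * Yt) =
          (∑ D ∈ Finset.Icc 1 n, G D) * ((∑ i ∈ Finset.range (n + 1), F p false i) * Yf +
            (∑ i ∈ Finset.range (n + 1), F p true i) * Yt) := by
        have e0 : (∑ i ∈ Finset.range (n + 1), F p false i) * Yf +
            (∑ i ∈ Finset.range (n + 1), F p true i) * Yt =
            ∑ i ∈ Finset.range (n + 1), (F p false i * Yf + F p true i * Yt) := by
          rw [Finset.sum_mul, Finset.sum_mul, ← Finset.sum_add_distrib]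
        rw [e0, Finset.sum_mul_sum, Finset.sum_comm]
      rw [e1]
      exact mul_le_mul' (hG n) (add_le_add (mul_le_mul' (hF p false (n + 1)) (ih false))
        (mul_le_mul' (hF p true (n + 1)) (ih true)))
    have h5 : lh * (fh * (2 * fh) + fh * (2 * fh)) ≤ fh := by
      have e2 : lh * (fh * (2 * fh) + fh * (2 * fh)) = (fh * lh) * (4 * fh) := by ring
      rw [e2]
      calc (fh * lh) * (4 * fh) ≤ 8⁻¹ * (4 * fh) := mul_le_mul' hfl le_rfl
        _ = (8⁻¹ * 4) * fh := by ring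
        _ ≤ 1 * fh := by
            refine mul_le_mul' ?_ le_rfl
            calc (8 : ℝ≥0∞)⁻¹ * 4 ≤ 8⁻¹ * 8 := mul_le_mul' le_rfl (by norm_num)
              _ = 1 := ENNReal.inv_mul_cancel (by norm_num) (by norm_num)
        _ = fh := one_mul _
    calc ∑ j ∈ Finset.range (n + 1), A p j
        ≤ ∑ j ∈ Finset.range (n + 1), (F p false j + ∑ i ∈ Finset.range (j + 1),
            ∑ D ∈ Finset.Icc 1 j, if i + D ≤ j then G D * (F p false i * A false (j - i - D) +
              F p true i * A true (j - i - D)) else 0) :=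
          Finset.sum_le_sum fun j _ => hstep p j
      _ = ∑ j ∈ Finset.range (n + 1), F p false j + ∑ j ∈ Finset.range (n + 1),
            ∑ i ∈ Finset.range (j + 1), ∑ D ∈ Finset.Icc 1 j, (if i + D ≤ j then
              G D * (F p false i * A false (j - i - D) +
              F p true i * A true (j - i - D)) else 0) := Finset.sum_add_distrib
      _ ≤ fh + fh := add_le_add (hF p false (n + 1))
          (((h1.trans (le_of_eq h2)).trans h3).trans (h4.trans h5))
      _ = 2 * fh := (two_mul fh).symm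

lemma umo_i1 (ν : Measure ℝ) [IsProbabilityMeasure ν] {θ : ℝ} (hθ : 0 < θ) {s t : ℕ}
    (hst : s ≤ t) {a b : (ℕ → ℝ) → ℝ≥0∞} (ha : Measurable a) (hda : DepLt s a)
    (hb : Measurable b) (c : ℝ≥0∞) :
    Measurable (fun x => (a x * (c * b (shift t x))) ^ θ) ∧
    ∫⁻ x, (a x * (c * b (shift t x))) ^ θ ∂(iid ν) =
      c ^ θ * ((∫⁻ x, a x ^ θ ∂(iid ν)) * ∫⁻ x, b x ^ θ ∂(iid ν)) := by
  have h1 : ∀ x : ℕ → ℝ, (a x * (c * b (shift t x))) ^ θ =
      c ^ θ * ((fun x => a x ^ θ) x * (fun x => b x ^ θ) (shift t x)) := by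
    intro x
    simp only
    rw [ENNReal.mul_rpow_of_nonneg _ _ hθ.le, ENNReal.mul_rpow_of_nonneg _ _ hθ.le]
    ring
  have hd : DepLt t (fun x => a x ^ θ) := by
    intro x x' h
    simp only
    rw [hda.mono hst x x' h]
  have hm1 : Measurable (fun x => a x ^ θ) := ha.pow_const θ
  have hm2 : Measurable (fun x => b x ^ θ) := hb.pow_const θ
  have hm3 : Measurable (fun x => (fun x => a x ^ θ) x * (fun x => b x ^ θ) (shift t x)) :=
    hm1.mul (hm2.comp (measurable_shift _))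
  refine ⟨?_, ?_⟩
  · have e : (fun x => (a x * (c * b (shift t x))) ^ θ) = fun x =>
        c ^ θ * ((fun x => a x ^ θ) x * (fun x => b x ^ θ) (shift t x)) := funext h1
    rw [e]
    exact hm3.const_mul _
  · rw [lintegral_congr h1, lintegral_const_mul _ hm3,
      Pool.Agent.H96.Cop.lint_mul_shift ν hd hm1 hm2]

lemma umo_i2 (ν : Measure ℝ) [IsProbabilityMeasure ν] {θ : ℝ} (hθ : 0 < θ)
    (hex : ∀ n, ∫⁻ x, ex 0 n x ^ θ ∂(iid ν) ≤ 1) {s t : ℕ}
    (hst : s ≤ t) {a b : (ℕ → ℝ) → ℝ≥0∞} (ha : Measurable a) (hda : DepLt s a)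
    (hb : Measurable b) (c : ℝ≥0∞) :
    Measurable (fun x => (a x * (c * ex s t x * b (shift t x))) ^ θ) ∧
    ∫⁻ x, (a x * (c * ex s t x * b (shift t x))) ^ θ ∂(iid ν) ≤
      c ^ θ * ((∫⁻ x, a x ^ θ ∂(iid ν)) * ∫⁻ x, b x ^ θ ∂(iid ν)) := by
  have e0 : ∀ x : ℕ → ℝ, a x * (c * ex s t x * b (shift t x)) =
      (fun x => a x * ex s t x) x * (c * b (shift t x)) := by
    intro x
    simp only
    ring
  have hm : Measurable (fun x => a x * ex s t x) :=
    ha.mul (Pool.Agent.H96.Cop.measurable_ex s t)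
  have hd : DepLt t (fun x => a x * ex s t x) := by
    intro x x' h
    simp only
    rw [hda.mono hst x x' h, Pool.Agent.H96.Cop.ex_dep s t x x' h]
  obtain ⟨h1, h2⟩ := umo_i1 ν hθ (le_refl t) hm hd hb c
  have e1 : (fun x => (a x * (c * ex s t x * b (shift t x))) ^ θ) = fun x =>
      ((fun x => a x * ex s t x) x * (c * b (shift t x))) ^ θ := by
    funext x
    rw [e0 x]
  rw [e1]
  refine ⟨h1, le_trans (le_of_eq h2) ?_⟩
  refine mul_le_mul' le_rfl (mul_le_mul' ?_ le_rfl)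
  have e2 : ∀ x : ℕ → ℝ, (a x * ex s t x) ^ θ =
      (fun x => a x ^ θ) x * (fun x => ex 0 (t - s) x ^ θ) (shift s x) := by
    intro x
    simp only
    rw [Pool.Agent.H96.Cop.ex_shift, zero_add, Nat.sub_add_cancel hst,
      ENNReal.mul_rpow_of_nonneg _ _ hθ.le]
  have hd1 : DepLt s (fun x => a x ^ θ) := by
    intro x x' h
    simp only
    rw [hda x x' h]
  rw [lintegral_congr e2, Pool.Agent.H96.Cop.lint_mul_shift ν hd1 (ha.pow_const θ)
    ((Pool.Agent.H96.Cop.measurable_ex 0 (t - s)).pow_const θ)]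
  exact (mul_le_mul' le_rfl (hex (t - s))).trans (le_of_eq (mul_one _))

theorem pf_UMO (hPFM : Pool.Agent.H99.CE.T_PFM) (hUDC : T_UDC) : T_UMO := by
  intro K ν _ k B g θ fh lh hk hkB hθ0 hθ1 hg hf hl hex hfl
  have hw1 := (hPFM.2 K).1 B
  have hw0 := (hPFM.2 K).2 k k
  have hN1 := (hPFM.1 _ hw1).2.2
  have hN0 := (hPFM.1 _ hw0).2.2
  intro n
  refine umo_abs
    (fun p j => ∫⁻ x, NX (Pool.Agent.H99.CE.w1 K B) k p false j x ^ θ ∂(iid ν))
    (fun p q i => ∫⁻ x, NX (Pool.Agent.H99.CE.w0 K k k) k p q i x ^ θ ∂(iid ν))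
    (fun D => g D ^ θ) fh lh ?_ hf hl hfl n false
  intro p j
  show ∫⁻ x, NX (Pool.Agent.H99.CE.w1 K B) k p false j x ^ θ ∂(iid ν) ≤
    ∫⁻ x, NX (Pool.Agent.H99.CE.w0 K k k) k p false j x ^ θ ∂(iid ν) +
    ∑ i ∈ Finset.range (j + 1), ∑ D ∈ Finset.Icc 1 j, if i + D ≤ j then
      g D ^ θ * ((∫⁻ x, NX (Pool.Agent.H99.CE.w0 K k k) k p false i x ^ θ ∂(iid ν)) *
        (∫⁻ x, NX (Pool.Agent.H99.CE.w1 K B) k false false (j - i - D) x ^ θ ∂(iid ν)) +
        (∫⁻ x, NX (Pool.Agent.H99.CE.w0 K k k) k p true i x ^ θ ∂(iid ν)) *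
        (∫⁻ x, NX (Pool.Agent.H99.CE.w1 K B) k true false (j - i - D) x ^ θ ∂(iid ν))) else 0
  set u1 : ℕ → ℕ → (ℕ → ℝ) → ℝ≥0∞ := fun i D x =>
    (NX (Pool.Agent.H99.CE.w0 K k k) k p false i x *
      (g D * NX (Pool.Agent.H99.CE.w1 K B) k false false (j - i - D)
        (shift ((i + D) * k) x))) ^ θ with hu1
  set u2 : ℕ → ℕ → (ℕ → ℝ) → ℝ≥0∞ := fun i D x =>
    (NX (Pool.Agent.H99.CE.w0 K k k) k p true i x *
      (g D * ex ((i + 1) * k) ((i + D) * k) x *
        NX (Pool.Agent.H99.CE.w1 K B) k true false (j - i - D)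
          (shift ((i + D) * k) x))) ^ θ with hu2
  have hpt : ∀ x : ℕ → ℝ, NX (Pool.Agent.H99.CE.w1 K B) k p false j x ^ θ ≤
      NX (Pool.Agent.H99.CE.w0 K k k) k p false j x ^ θ +
      ∑ i ∈ Finset.range (j + 1), ∑ D ∈ Finset.Icc 1 j,
        if i + D ≤ j then u1 i D x + u2 i D x else 0 := by
    intro x
    refine (ENNReal.rpow_le_rpow (hUDC K k B g hk hkB hg p j x) hθ0.le).trans ?_
    refine (ENNReal.rpow_add_le_add_rpow _ _ hθ0.le hθ1).trans (add_le_add le_rfl ?_)
    refine (Pool.Agent.H96.Cop.rpow_sum_le _ _ θ hθ0 hθ1).trans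
      (Finset.sum_le_sum fun i _ => ?_)
    refine (Pool.Agent.H96.Cop.rpow_sum_le _ _ θ hθ0 hθ1).trans
      (Finset.sum_le_sum fun D _ => ?_)
    by_cases h : i + D ≤ j
    · rw [if_pos h, if_pos h]
      exact ENNReal.rpow_add_le_add_rpow _ _ hθ0.le hθ1
    · rw [if_neg h, if_neg h, ENNReal.zero_rpow_of_pos hθ0]
  have hle : ∀ i D, 1 ≤ D → (i + 1) * k ≤ (i + D) * k := fun i D hD =>
    Nat.mul_le_mul_right k (by omega)
  have hi1 : ∀ i D, 1 ≤ D → Measurable (u1 i D) ∧ ∫⁻ x, u1 i D x ∂(iid ν) =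
      g D ^ θ * ((∫⁻ x, NX (Pool.Agent.H99.CE.w0 K k k) k p false i x ^ θ ∂(iid ν)) *
        ∫⁻ x, NX (Pool.Agent.H99.CE.w1 K B) k false false (j - i - D) x ^ θ ∂(iid ν)) :=
    fun i D hD => umo_i1 ν hθ0 (hle i D hD) (hN0 k p false i).1 (hN0 k p false i).2
      (hN1 k false false (j - i - D)).1 (g D)
  have hi2 : ∀ i D, 1 ≤ D → Measurable (u2 i D) ∧ ∫⁻ x, u2 i D x ∂(iid ν) ≤
      g D ^ θ * ((∫⁻ x, NX (Pool.Agent.H99.CE.w0 K k k) k p true i x ^ θ ∂(iid ν)) *
        ∫⁻ x, NX (Pool.Agent.H99.CE.w1 K B) k true false (j - i - D) x ^ θ ∂(iid ν)) :=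
    fun i D hD => umo_i2 ν hθ0 hex (hle i D hD) (hN0 k p true i).1 (hN0 k p true i).2
      (hN1 k true false (j - i - D)).1 (g D)
  have hmu : ∀ i D, 1 ≤ D → Measurable fun x => if i + D ≤ j then u1 i D x + u2 i D x else 0 := by
    intro i D hD
    by_cases h : i + D ≤ j
    · simp only [if_pos h]
      exact (hi1 i D hD).1.add (hi2 i D hD).1
    · simp only [if_neg h]
      exact measurable_const
  refine (lintegral_mono hpt).trans ?_
  rw [lintegral_add_left ((hN0 k p false j).1.pow_const θ)]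
  refine add_le_add le_rfl ?_
  rw [lintegral_finsetSum _ fun i _ => Finset.measurable_sum _ fun D hD =>
    hmu i D (Finset.mem_Icc.1 hD).1]
  refine Finset.sum_le_sum fun i _ => ?_
  rw [lintegral_finsetSum _ fun D hD => hmu i D (Finset.mem_Icc.1 hD).1]
  refine Finset.sum_le_sum fun D hD => ?_
  have hD1 := (Finset.mem_Icc.1 hD).1
  by_cases h : i + D ≤ j
  · simp only [if_pos h]
    rw [lintegral_add_left (hi1 i D hD1).1, mul_add]
    exact add_le_add (le_of_eq (hi1 i D hD1).2) (hi2 i D hD1).2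
  · simp only [if_neg h]
    simp

end Pool.Agent.H78.SLN
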